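import Pool.Agent.R98.HubFinal

/-! MP_7e79aa_co: the strong hub cover pebbling number of every cycle.

`Move G p q` is one pebbling move, `StrongHub G U` says that `U` is a strong hub set of `G`, and
`CoverProp G t` says that from every configuration with `t` pebbles in total some finite sequence of
moves reaches a configuration covering every vertex of some strong hub set. The strong hub cover
pebbling number of `G` is the least `t` with `CoverProp G t`. -/

namespace Pool.Agent.Results.MP_7e79aa_co.HubCycles

open Pool.Agent.R98.Hub

/-- For every `k ≥ 2` the strong hub cover pebbling number of `C_{2k}` is `2^k + 2^(k-1) - 3`, and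
for every `k ≥ 1` that of `C_{2k+1}` is `2^(k+1) - 3`. -/
theorem result :
    (∀ k : ℕ, 2 ≤ k → IsLeast {t : ℕ | CoverProp (SimpleGraph.cycleGraph (2 * k)) t}
      (2 ^ k + 2 ^ (k - 1) - 3)) ∧
    (∀ k : ℕ, 1 ≤ k → IsLeast {t : ℕ | CoverProp (SimpleGraph.cycleGraph (2 * k + 1)) t}
      (2 ^ (k + 1) - 3)) :=
  ⟨even_case, odd_case⟩

end Pool.Agent.Results.MP_7e79aa_co.HubCycles
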